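import Pool.Agent.Helper47.BK.Main

/-!
MP_b5f63d_co: kissing configurations on the vertices of a rectangular box have exponent at most
`0.351`.
-/

set_option autoImplicit false

open Filter Metric
open scoped RealInnerProductSpace

namespace Pool.Agent.Results.MP_b5f63d_co.BoxKissing

/-- `C` is the set of centres of closed unit balls in `ℝ^d`, each of which touches the closed unit
ball around the origin and has interior disjoint from it, with pairwise disjoint interiors. -/
def IsKissing (d : ℕ) (C : Finset (EuclideanSpace ℝ (Fin d))) : Prop :=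
  (∀ x ∈ C, (closedBall x 1 ∩ closedBall 0 1).Nonempty ∧ Disjoint (ball x 1) (ball 0 1)) ∧
    ∀ x ∈ C, ∀ y ∈ C, x ≠ y → Disjoint (ball x 1) (ball y 1)

/-- The vertices of the rectangular box centred at the origin whose edges are parallel to the
orthonormal basis `b` and have lengths `2 * r i` (for `r i = 0` a box of smaller dimension):
the vectors whose coordinates have absolute values `r i`. -/
def boxVertices {d : ℕ} (b : OrthonormalBasis (Fin d) ℝ (EuclideanSpace ℝ (Fin d)))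
    (r : Fin d → ℝ) : Set (EuclideanSpace ℝ (Fin d)) :=
  {x | ∀ i, |⟪b i, x⟫| = r i}

/-- The largest number of points of a kissing configuration that are vertices of a common
rectangular box centred at the origin. -/
noncomputable def tauBox (d : ℕ) : ℕ :=
  sSup {N : ℕ | ∃ (C : Finset (EuclideanSpace ℝ (Fin d)))
    (b : OrthonormalBasis (Fin d) ℝ (EuclideanSpace ℝ (Fin d))) (r : Fin d → ℝ),
    IsKissing d C ∧ ((C : Set (EuclideanSpace ℝ (Fin d))) ∩ boxVertices b r).ncard = N}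

/-- `C` is a finite subset of the sphere of radius `2` whose points are seen from the origin under
pairwise angles with cosine at most `s` (for `s = 1/2` these are the kissing configurations). -/
def IsAngular (s : ℝ) (d : ℕ) (C : Finset (EuclideanSpace ℝ (Fin d))) : Prop :=
  (∀ x ∈ C, ‖x‖ = 2) ∧ ∀ x ∈ C, ∀ y ∈ C, x ≠ y → ⟪x, y⟫ ≤ 4 * s

lemma isKissing_iff {d : ℕ} {C : Finset (EuclideanSpace ℝ (Fin d))} :
    IsKissing d C ↔ (∀ x ∈ C, ‖x‖ = 2) ∧ ∀ x ∈ C, ∀ y ∈ C, x ≠ y → 2 ≤ dist x y := by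
  have h : ∀ x y : EuclideanSpace ℝ (Fin d), Disjoint (ball x 1) (ball y 1) ↔ 2 ≤ dist x y := by
    intro x y
    rw [disjoint_ball_ball_iff one_pos one_pos]
    norm_num
  have h' : ∀ x : EuclideanSpace ℝ (Fin d),
      ((closedBall x 1 ∩ closedBall 0 1).Nonempty ∧ Disjoint (ball x 1) (ball 0 1)) ↔ ‖x‖ = 2 := by
    intro x
    rw [h, dist_zero_right]
    constructor
    · rintro ⟨⟨y, hy1, hy2⟩, h2⟩
      rw [mem_closedBall] at hy1
      rw [mem_closedBall, dist_zero_right] at hy2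
      have h3 : ‖x‖ ≤ ‖y‖ + dist y x := by
        rw [dist_eq_norm, ← norm_sub_rev x y]
        calc ‖x‖ = ‖y + (x - y)‖ := by congr 1; abel
          _ ≤ _ := norm_add_le _ _
      linarith
    · intro hx
      refine ⟨⟨(2⁻¹ : ℝ) • x, ?_, ?_⟩, hx.ge⟩
      · rw [mem_closedBall, dist_eq_norm]
        have : (2⁻¹ : ℝ) • x - x = (-2⁻¹ : ℝ) • x := by
          rw [← sub_eq_zero]
          module
        rw [this, norm_smul, hx]
        norm_num
      · rw [mem_closedBall, dist_zero_right, norm_smul, hx]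
        norm_num
  unfold IsKissing
  simp only [h']
  simp only [h]

/-- the signs of the coordinates -/
noncomputable def sgn {d : ℕ} (b : OrthonormalBasis (Fin d) ℝ (EuclideanSpace ℝ (Fin d)))
    (x : EuclideanSpace ℝ (Fin d)) (i : Fin d) : Bool :=
  decide (0 ≤ ⟪b i, x⟫)

lemma coord_sub {d : ℕ} {b : OrthonormalBasis (Fin d) ℝ (EuclideanSpace ℝ (Fin d))}
    {r : Fin d → ℝ} {x y : EuclideanSpace ℝ (Fin d)} (hbx : x ∈ boxVertices b r)
    (hby : y ∈ boxVertices b r) (i : Fin d) :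
    ‖⟪b i, x - y⟫‖ ^ 2 = if sgn b x i ≠ sgn b y i then 16 * (r i ^ 2 / 4) else 0 := by
  have h1 := hbx i
  have h2 := hby i
  rw [inner_sub_right, Real.norm_eq_abs, sq_abs]
  unfold sgn
  rcases le_or_gt 0 ⟪b i, x⟫ with hp | hp
  · rw [abs_of_nonneg hp] at h1
    rcases le_or_gt 0 ⟪b i, y⟫ with hq | hq
    · rw [abs_of_nonneg hq] at h2
      rw [if_neg (by simp [hp, hq]), h1, h2]; ring
    · rw [abs_of_neg hq] at h2
      rw [if_pos (by simp [hp, hq.not_ge]), h1, show ⟪b i, y⟫ = -(r i) by linarith]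
      ring
  · rw [abs_of_neg hp] at h1
    rcases le_or_gt 0 ⟪b i, y⟫ with hq | hq
    · rw [abs_of_nonneg hq] at h2
      rw [if_pos (by simp [hp.not_ge, hq]), h2, show ⟪b i, x⟫ = -(r i) by linarith]
      ring
    · rw [abs_of_neg hq] at h2
      rw [if_neg (by simp [hp.not_ge, hq.not_ge]), show ⟪b i, x⟫ = -(r i) by linarith,
        show ⟪b i, y⟫ = -(r i) by linarith]
      ring

lemma dist_sq {d : ℕ} {b : OrthonormalBasis (Fin d) ℝ (EuclideanSpace ℝ (Fin d))}
    {r : Fin d → ℝ} {x y : EuclideanSpace ℝ (Fin d)} (hbx : x ∈ boxVertices b r)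
    (hby : y ∈ boxVertices b r) :
    dist x y ^ 2 = 16 * ∑ i with sgn b x i ≠ sgn b y i, r i ^ 2 / 4 := by
  rw [dist_eq_norm, ← b.sum_sq_norm_inner_right (x - y)]
  rw [Finset.sum_congr rfl fun i _ => coord_sub hbx hby i]
  rw [← Finset.sum_filter, Finset.mul_sum]

lemma isKissing_iff_isAngular {d : ℕ} {C : Finset (EuclideanSpace ℝ (Fin d))} :
    IsKissing d C ↔ IsAngular (1 / 2) d C := by
  rw [isKissing_iff]
  unfold IsAngular
  have key : ∀ x y : EuclideanSpace ℝ (Fin d), ‖x‖ = 2 → ‖y‖ = 2 →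
      (2 ≤ dist x y ↔ ⟪x, y⟫ ≤ 4 * (1 / 2)) := by
    intro x y hx hy
    have h := norm_sub_sq_real x y
    rw [hx, hy, ← dist_eq_norm] at h
    have h0 : 0 ≤ dist x y := dist_nonneg
    constructor
    · intro h1
      nlinarith
    · intro h1
      nlinarith
  constructor
  · rintro ⟨h1, h2⟩
    exact ⟨h1, fun x hx y hy hxy => (key x y (h1 x hx) (h1 y hy)).1 (h2 x hx y hy hxy)⟩
  · rintro ⟨h1, h2⟩
    exact ⟨h1, fun x hx y hy hxy => (key x y (h1 x hx) (h1 y hy)).2 (h2 x hx y hy hxy)⟩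

/-- the same maximum for angular configurations (used only in the proof) -/
noncomputable def angBox (s : ℝ) (d : ℕ) : ℕ :=
  sSup {N : ℕ | ∃ (C : Finset (EuclideanSpace ℝ (Fin d)))
    (b : OrthonormalBasis (Fin d) ℝ (EuclideanSpace ℝ (Fin d))) (r : Fin d → ℝ),
    IsAngular s d C ∧ ((C : Set (EuclideanSpace ℝ (Fin d))) ∩ boxVertices b r).ncard = N}

lemma tauBox_eq (d : ℕ) : tauBox d = angBox (1 / 2) d := by
  unfold tauBox angBox
  simp only [isKissing_iff_isAngular]

/-- the bound for codes with weighted distances -/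
def CodeBound (s B : ℝ) (d : ℕ) : Prop :=
  ∀ w : Fin d → ℝ, (∀ i, 0 ≤ w i) → ∑ i, w i = 1 → ∀ C : Finset (Fin d → Bool),
    (∀ u ∈ C, ∀ v ∈ C, u ≠ v → (1 - s) / 2 ≤ ∑ i with u i ≠ v i, w i) → (C.card : ℝ) ≤ B

/-- the bound for one box -/
lemma box_le {d : ℕ} {s B : ℝ} (hs1 : s < 1) (hB0 : 0 ≤ B) (hB : CodeBound s B d)
    {C : Finset (EuclideanSpace ℝ (Fin d))} (hC : IsAngular s d C)
    (b : OrthonormalBasis (Fin d) ℝ (EuclideanSpace ℝ (Fin d))) (r : Fin d → ℝ) :
    (((C : Set (EuclideanSpace ℝ (Fin d))) ∩ boxVertices b r).ncard : ℝ) ≤ B := by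
  classical
  obtain ⟨h1, h2⟩ := hC
  set D : Finset (EuclideanSpace ℝ (Fin d)) := C.filter (fun x => x ∈ boxVertices b r) with hD
  have hDC : ((C : Set (EuclideanSpace ℝ (Fin d))) ∩ boxVertices b r) = (D : Set _) := by
    ext x
    simp [hD]
  rw [hDC, Set.ncard_coe_finset]
  rcases D.eq_empty_or_nonempty with h0 | ⟨z, hz⟩
  · rw [h0, Finset.card_empty, Nat.cast_zero]
    exact hB0
  have hsum : ∑ i, r i ^ 2 / 4 = 1 := by
    have hz' := (Finset.mem_filter.1 hz)
    have e1 := b.sum_sq_norm_inner_right z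
    have e2 : ∀ i ∈ (Finset.univ : Finset (Fin d)), ‖⟪b i, z⟫‖ ^ 2 = r i ^ 2 := by
      intro i _
      rw [Real.norm_eq_abs, hz'.2 i]
    rw [Finset.sum_congr rfl e2, h1 z hz'.1] at e1
    rw [← Finset.sum_div, e1]
    norm_num
  have hham : ∀ x ∈ D, ∀ y ∈ D, x ≠ y →
      (1 - s) / 2 ≤ ∑ i with sgn b x i ≠ sgn b y i, r i ^ 2 / 4 := by
    intro x hx y hy hxy
    rw [hD, Finset.mem_filter] at hx hy
    have h3 := dist_sq hx.2 hy.2
    have h4 := h2 x hx.1 y hy.1 hxy
    have h8 := norm_sub_sq_real x y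
    rw [h1 x hx.1, h1 y hy.1, ← dist_eq_norm] at h8
    linarith
  have hinj : Set.InjOn (sgn b) (D : Set (EuclideanSpace ℝ (Fin d))) := by
    intro x hx y hy hxy
    by_contra hne
    have := hham x hx y hy hne
    rw [hxy] at this
    simp only [ne_eq, not_true_eq_false, Finset.filter_false, Finset.sum_empty] at this
    linarith
  rw [← Finset.card_image_of_injOn hinj]
  apply hB (fun i => r i ^ 2 / 4) (fun i => by positivity) hsum
  intro u hu v hv huv
  rw [Finset.mem_image] at hu hv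
  obtain ⟨x, hx, rfl⟩ := hu
  obtain ⟨y, hy, rfl⟩ := hv
  exact hham x hx y hy (fun h => huv (by rw [h]))

/-- the bound for a union of boxes -/
lemma union_le {d N : ℕ} {s B : ℝ} (hs1 : s < 1) (hB0 : 0 ≤ B) (hB : CodeBound s B d)
    {C : Finset (EuclideanSpace ℝ (Fin d))} (hC : IsAngular s d C)
    (b : Fin N → OrthonormalBasis (Fin d) ℝ (EuclideanSpace ℝ (Fin d))) (r : Fin N → Fin d → ℝ)
    (hCb : (C : Set (EuclideanSpace ℝ (Fin d))) ⊆ ⋃ k, boxVertices (b k) (r k)) :
    (C.card : ℝ) ≤ N * B := by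
  classical
  have h1 : C ⊆ Finset.univ.biUnion fun k => C.filter (fun x => x ∈ boxVertices (b k) (r k)) := by
    intro x hx
    have h2 := hCb (Finset.mem_coe.2 hx)
    rw [Set.mem_iUnion] at h2
    obtain ⟨k, hk⟩ := h2
    rw [Finset.mem_biUnion]
    exact ⟨k, Finset.mem_univ _, Finset.mem_filter.2 ⟨hx, hk⟩⟩
  have h3 : C.card ≤ ∑ k, (C.filter (fun x => x ∈ boxVertices (b k) (r k))).card :=
    (Finset.card_le_card h1).trans Finset.card_biUnion_le
  calc (C.card : ℝ) ≤ ((∑ k, (C.filter (fun x => x ∈ boxVertices (b k) (r k))).card : ℕ) : ℝ) := by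
        exact_mod_cast h3
    _ = ∑ k, ((C.filter (fun x => x ∈ boxVertices (b k) (r k))).card : ℝ) := by push_cast; rfl
    _ ≤ ∑ _k : Fin N, B := by
        refine Finset.sum_le_sum fun k _ => ?_
        have h4 := box_le hs1 hB0 hB hC (b k) (r k)
        have h5 : ((C : Set (EuclideanSpace ℝ (Fin d))) ∩ boxVertices (b k) (r k)) =
            ((C.filter (fun x => x ∈ boxVertices (b k) (r k)) : Finset _) : Set _) := by
          ext x
          simp
        rwa [h5, Set.ncard_coe_finset] at h4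
    _ = N * B := by
        rw [Finset.sum_const, Finset.card_univ, Fintype.card_fin, nsmul_eq_mul]

/-- everything from a bound for codes -/
lemma angular_of_codes {s κ : ℝ} (hs1 : s < 1) {d : ℕ} (hd1 : 1 ≤ d)
    (hB0 : CodeBound s (2 ^ (κ * d)) d) :
    (∀ C : Finset (EuclideanSpace ℝ (Fin d)), IsAngular s d C →
      ∀ (b : OrthonormalBasis (Fin d) ℝ (EuclideanSpace ℝ (Fin d))) (r : Fin d → ℝ),
        (((C : Set (EuclideanSpace ℝ (Fin d))) ∩ boxVertices b r).ncard : ℝ) ≤ 2 ^ (κ * d)) ∧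
      (∃ (C : Finset (EuclideanSpace ℝ (Fin d)))
        (b : OrthonormalBasis (Fin d) ℝ (EuclideanSpace ℝ (Fin d))) (r : Fin d → ℝ),
        IsAngular s d C ∧ (C : Set (EuclideanSpace ℝ (Fin d))) ⊆ boxVertices b r ∧
          C.card = angBox s d) ∧
      1 ≤ angBox s d ∧ (angBox s d : ℝ) ≤ 2 ^ (κ * d) := by
  have hB : ∀ C : Finset (EuclideanSpace ℝ (Fin d)), IsAngular s d C →
    ∀ (b : OrthonormalBasis (Fin d) ℝ (EuclideanSpace ℝ (Fin d))) (r : Fin d → ℝ),
      (((C : Set (EuclideanSpace ℝ (Fin d))) ∩ boxVertices b r).ncard : ℝ) ≤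
        2 ^ (κ * d) := fun C hC b r => box_le hs1 (by positivity) hB0 hC b r
  set S : Set ℕ := {N : ℕ | ∃ (C : Finset (EuclideanSpace ℝ (Fin d)))
    (b : OrthonormalBasis (Fin d) ℝ (EuclideanSpace ℝ (Fin d))) (r : Fin d → ℝ),
    IsAngular s d C ∧ ((C : Set (EuclideanSpace ℝ (Fin d))) ∩ boxVertices b r).ncard = N} with hS
  have hbdd : BddAbove S :=
    ⟨⌊(2 : ℝ) ^ (κ * d)⌋₊, by
      rintro N ⟨C, b, r, hC, rfl⟩
      exact Nat.le_floor (hB C hC b r)⟩
  have hone : 1 ∈ S := by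
    let b : OrthonormalBasis (Fin d) ℝ (EuclideanSpace ℝ (Fin d)) :=
      EuclideanSpace.basisFun (Fin d) ℝ
    let x : EuclideanSpace ℝ (Fin d) := (2 : ℝ) • b ⟨0, hd1⟩
    have hx : ‖x‖ = 2 := by
      simp only [x]
      rw [norm_smul, b.orthonormal.1]
      norm_num
    refine ⟨{x}, b, fun i => |⟪b i, x⟫|, ?_, ?_⟩
    · refine ⟨by simpa using hx, ?_⟩
      intro u hu v hv huv
      rw [Finset.mem_singleton] at hu hv
      exact absurd (hu.trans hv.symm) huv
    · have : (({x} : Finset (EuclideanSpace ℝ (Fin d))) : Set (EuclideanSpace ℝ (Fin d))) ∩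
          boxVertices b (fun i => |⟪b i, x⟫|) = {x} := by
        rw [Finset.coe_singleton]
        exact Set.inter_eq_left.2 (Set.singleton_subset_iff.2 fun i => rfl)
      rw [this, Set.ncard_singleton]
  have hmem : angBox s d ∈ S := Nat.sSup_mem ⟨1, hone⟩ hbdd
  refine ⟨hB, ?_, le_csSup hbdd hone, ?_⟩
  · classical
    obtain ⟨C, b, r, hC, hN⟩ := hmem
    refine ⟨C.filter (fun x => x ∈ boxVertices b r), b, r, ?_, ?_, ?_⟩
    · refine ⟨fun x hx => hC.1 x (Finset.mem_filter.1 hx).1, fun x hx y hy hxy => ?_⟩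
      exact hC.2 x (Finset.mem_filter.1 hx).1 y (Finset.mem_filter.1 hy).1 hxy
    · intro x hx
      exact (Finset.mem_filter.1 hx).2
    · rw [← hN, ← Set.ncard_coe_finset]
      congr 1
      ext x
      simp
  · obtain ⟨C, b, r, hC, hN⟩ := hmem
    rw [← hN]
    exact hB C hC b r

lemma limsup_bound {M : ℕ → ℕ} {κ : ℝ}
    (h : ∀ᶠ d : ℕ in atTop, 1 ≤ M d ∧ (M d : ℝ) ≤ 2 ^ (κ * d)) :
    limsup (fun d : ℕ => Real.logb 2 (M d) / d) atTop ≤ κ := by
  apply limsup_le_of_le
  · refine ⟨0, ?_⟩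
    intro a ha
    rw [eventually_map] at ha
    obtain ⟨d, h1, h2⟩ := (ha.and h).exists
    refine le_trans ?_ h1
    have h3 : 0 ≤ Real.logb 2 (M d) :=
      Real.logb_nonneg (by norm_num) (by exact_mod_cast h2.1)
    positivity
  · filter_upwards [h, eventually_ge_atTop 1] with d hd hd1
    have hd0 : (0 : ℝ) < d := by exact_mod_cast hd1
    rw [div_le_iff₀ hd0]
    rw [Real.logb_le_iff_le_rpow (by norm_num) (by exact_mod_cast hd.1)]
    exact hd.2

/-- **Kissing configurations on the vertices of boxes.**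
(1) For all large `d` the following holds. For every kissing configuration `C` in `ℝ^d` and every
rectangular box centred at the origin, at most `2 ^ (0.351 d)` points of `C` are vertices of the
box; hence a kissing configuration contained in the union of the vertex sets of `N` such boxes has
at most `N * 2 ^ (0.351 d)` points. The number `tauBox d` is attained by a kissing configuration all
of whose points are vertices of one box, and the limsup of `log_2 (tauBox d) / d` is at most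
`0.351`.
(2) For every `0 < s < 1` there is `κ < H((1 - √(1 - s^2)) / 2)`, `H` the binary entropy function
with values in bits, such that for all large `d` a configuration with pairwise angles of cosine at
most `s` has at most `2 ^ (κ d)` points among the vertices of a box. -/
theorem result :
    ((∀ᶠ d : ℕ in atTop,
      (∀ C : Finset (EuclideanSpace ℝ (Fin d)), IsKissing d C →
        ∀ (b : OrthonormalBasis (Fin d) ℝ (EuclideanSpace ℝ (Fin d))) (r : Fin d → ℝ),
          (((C : Set (EuclideanSpace ℝ (Fin d))) ∩ boxVertices b r).ncard : ℝ) ≤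
            2 ^ ((351 / 1000 : ℝ) * d)) ∧
      (∀ C : Finset (EuclideanSpace ℝ (Fin d)), IsKissing d C →
        ∀ (N : ℕ) (b : Fin N → OrthonormalBasis (Fin d) ℝ (EuclideanSpace ℝ (Fin d)))
          (r : Fin N → Fin d → ℝ),
          (C : Set (EuclideanSpace ℝ (Fin d))) ⊆ ⋃ k, boxVertices (b k) (r k) →
            (C.card : ℝ) ≤ N * 2 ^ ((351 / 1000 : ℝ) * d)) ∧
      (∃ (C : Finset (EuclideanSpace ℝ (Fin d)))
        (b : OrthonormalBasis (Fin d) ℝ (EuclideanSpace ℝ (Fin d))) (r : Fin d → ℝ),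
        IsKissing d C ∧ (C : Set (EuclideanSpace ℝ (Fin d))) ⊆ boxVertices b r ∧
          C.card = tauBox d) ∧
      1 ≤ tauBox d ∧ (tauBox d : ℝ) ≤ 2 ^ ((351 / 1000 : ℝ) * d)) ∧
      limsup (fun d : ℕ => Real.logb 2 (tauBox d) / d) atTop ≤ 351 / 1000) ∧
    ∀ s : ℝ, 0 < s → s < 1 →
      ∃ κ : ℝ, κ < Real.binEntropy ((1 - Real.sqrt (1 - s ^ 2)) / 2) / Real.log 2 ∧
        ∀ᶠ d : ℕ in atTop, ∀ C : Finset (EuclideanSpace ℝ (Fin d)), IsAngular s d C →
          ∀ (b : OrthonormalBasis (Fin d) ℝ (EuclideanSpace ℝ (Fin d))) (r : Fin d → ℝ),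
            (((C : Set (EuclideanSpace ℝ (Fin d))) ∩ boxVertices b r).ncard : ℝ) ≤
              2 ^ (κ * d) := by
  have hmain : ∀ᶠ d : ℕ in atTop,
      (∀ C : Finset (EuclideanSpace ℝ (Fin d)), IsKissing d C →
        ∀ (b : OrthonormalBasis (Fin d) ℝ (EuclideanSpace ℝ (Fin d))) (r : Fin d → ℝ),
          (((C : Set (EuclideanSpace ℝ (Fin d))) ∩ boxVertices b r).ncard : ℝ) ≤
            2 ^ ((351 / 1000 : ℝ) * d)) ∧
      (∀ C : Finset (EuclideanSpace ℝ (Fin d)), IsKissing d C →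
        ∀ (N : ℕ) (b : Fin N → OrthonormalBasis (Fin d) ℝ (EuclideanSpace ℝ (Fin d)))
          (r : Fin N → Fin d → ℝ),
          (C : Set (EuclideanSpace ℝ (Fin d))) ⊆ ⋃ k, boxVertices (b k) (r k) →
            (C.card : ℝ) ≤ N * 2 ^ ((351 / 1000 : ℝ) * d)) ∧
      (∃ (C : Finset (EuclideanSpace ℝ (Fin d)))
        (b : OrthonormalBasis (Fin d) ℝ (EuclideanSpace ℝ (Fin d))) (r : Fin d → ℝ),
        IsKissing d C ∧ (C : Set (EuclideanSpace ℝ (Fin d))) ⊆ boxVertices b r ∧
          C.card = tauBox d) ∧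
      1 ≤ tauBox d ∧ (tauBox d : ℝ) ≤ 2 ^ ((351 / 1000 : ℝ) * d) := by
    filter_upwards [Pool.Agent.Helper47.BK.box_quarter, eventually_ge_atTop 1] with d hd hd1
    have hcb : CodeBound (1 / 2) (2 ^ ((351 / 1000 : ℝ) * d)) d := by
      intro w hw hw1 C hC
      refine hd w hw hw1 C fun u hu v hv huv => ?_
      have h1 := hC u hu v hv huv
      linarith
    have h := angular_of_codes (s := 1 / 2) (κ := 351 / 1000) (by norm_num) hd1 hcb
    refine ⟨?_, ?_, ?_⟩
    · simpa only [isKissing_iff_isAngular] using h.1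
    · intro C hC N b r hCb
      exact union_le (by norm_num) (by positivity) hcb (isKissing_iff_isAngular.1 hC) b r hCb
    · simpa only [isKissing_iff_isAngular, tauBox_eq] using h.2
  refine ⟨⟨hmain, limsup_bound (hmain.mono fun d hd => hd.2.2.2)⟩, ?_⟩
  intro s hs0 hs1
  obtain ⟨κ, hκ, hev⟩ := Pool.Agent.Helper47.BK.box_strict hs0 hs1
  have hl2 : 0 < Real.log 2 := Real.log_pos (by norm_num)
  refine ⟨κ, (lt_div_iff₀ hl2).2 hκ, ?_⟩
  filter_upwards [hev, eventually_ge_atTop 1] with d hd hd1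
  exact (angular_of_codes hs1 hd1 hd).1

end Pool.Agent.Results.MP_b5f63d_co.BoxKissing
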